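import Pool.Agent.H48SC.Main

/-!
# S(p) and T(p) modulo p^3 for every prime p > 5

With `n = (p-1)/2`, `S(p) = sum_{j ≤ n} C(2j,j)^3/(-64)^j` and
`T(p) = sum_{j < p} C(2j,j) C(3j,j) C(6j,3j)/20^(3j)`, for every prime `p > 5`

`S(p) - (5/p) T(p) = (9/50) p^2 E_n` modulo `p^3`,

`E_n = sum_j C(n,j)^3 (3 (H_j - H_{n-j})^2 + H2_j + H2_{n-j})`, and `E_n = 0` modulo `p` when
`p = 1, 3` modulo `8`, which is the congruence of the problem.

Proof. Bailey's terminating cubic transformation at the argument `-4`,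
`sum_m C(N,m) (1/2)_m^2/(b)_m^2 = sum_j (-N)_{3j} 5^(N-3j)/(j! (b)_j^2)`, `b = (3-2N)/4` (a case
of the Pfaff-Saalschuetz identity), is used for `N = k p + n`, `k = 0, 1, 2`. Its right side is a
quadratic polynomial in `al = -k - 1/2` modulo `p^3` whose value at `al = 0` is `T(p)`;
interpolation gives `T(p)` from the three left sides. These split into blocks of length `p`,
which are expanded modulo `p^3` and compared by the reversal `r -> n - r`. The remaining second
order sum is `E_n`; the numbers `E_m` satisfy the recurrence of the Franel numbers, whose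
symmetry `m -> p - 1 - m` modulo `p` gives `E_m = - (-8)^m E_{p-1-m}`, hence
`E_n = - (-2/p) E_n` modulo `p`.
-/

namespace Pool.Agent.Results.MP_125025_nt.AllPrimes

open Finset

/-- The sum `S(p)` of the problem. -/
def S (p : ℕ) : ℚ :=
  ∑ j ∈ range ((p - 1) / 2 + 1), ((-64 : ℚ) ^ j)⁻¹ * (Nat.choose (2 * j) j : ℚ) ^ 3

/-- The sum `T(p)` of the problem. -/
def T (p : ℕ) : ℚ :=
  ∑ j ∈ range p, ((20 : ℚ) ^ (3 * j))⁻¹ * (Nat.choose (2 * j) j : ℚ) *
    (Nat.choose (3 * j) j : ℚ) * (Nat.choose (6 * j) (3 * j) : ℚ)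

/-- The harmonic number `1 + 1/2 + ... + 1/m`. -/
def harm (m : ℕ) : ℚ := ∑ i ∈ range m, 1 / ((i : ℚ) + 1)

/-- The second order harmonic number `1 + 1/4 + ... + 1/m^2`. -/
def harm2 (m : ℕ) : ℚ := ∑ i ∈ range m, 1 / ((i : ℚ) + 1) ^ 2

/-- `E n = sum_j C(n,j)^3 (3 (H_j - H_{n-j})^2 + H2_j + H2_{n-j})`. -/
def E (n : ℕ) : ℚ :=
  ∑ j ∈ range (n + 1), (Nat.choose n j : ℚ) ^ 3 *
    (3 * (harm j - harm (n - j)) ^ 2 + harm2 j + harm2 (n - j))

/-- `x = y` modulo `p^3` in the ring of `p`-integral rational numbers: `(x - y)/p^3` has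
denominator prime to `p`. -/
def CongrCube (p : ℕ) (x y : ℚ) : Prop := ¬ p ∣ ((x - y) / (p : ℚ) ^ 3).den

theorem congrCube_of_cg {p : ℕ} [Fact p.Prime] {x y : ℚ} (h : H48SC.Cg p 3 x y) :
    CongrCube p x y := by
  obtain ⟨z, hz, e⟩ := h
  have hp : (p : ℚ) ≠ 0 := by exact_mod_cast (Fact.out : p.Prime).ne_zero
  have e1 : (x - y) / (p : ℚ) ^ 3 = z := by
    rw [e]
    field_simp
  unfold CongrCube
  rw [e1]
  exact hz

/-- For every prime `p > 5`, `S(p) - (5/p) T(p) = (9/50) p^2 E_{(p-1)/2}` modulo `p^3`, and the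
right side is `0` modulo `p^3` when `p = 1` or `3` modulo `8`; in particular
`S(p) = (5/p) T(p)` modulo `p^3` for every prime `p > 3` with `p = 1` or `3` modulo `8`. -/
theorem result :
    (∀ (p : ℕ) [Fact p.Prime], 5 < p →
      CongrCube p (S p - (legendreSym p 5 : ℚ) * T p)
        (9 / 50 * (p : ℚ) ^ 2 * E ((p - 1) / 2))) ∧
    (∀ (p : ℕ) [Fact p.Prime], 3 < p → (p % 8 = 1 ∨ p % 8 = 3) →
      CongrCube p (S p) ((legendreSym p 5 : ℚ) * T p)) := by
  constructor
  · intro p _ hp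
    exact congrCube_of_cg (H48SC.main hp)
  · intro p _ hp h8
    have h := congrCube_of_cg (H48SC.main_Q1 hp h8)
    unfold CongrCube at h ⊢
    rw [sub_zero] at h
    exact h

end Pool.Agent.Results.MP_125025_nt.AllPrimes
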